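import Mathlib
import Pool.Agent.X328.GN.Stm
import Pool.Agent.X328.FP.Hq

/-! # Heights of polynomial expressions, of roots, and of the coefficients of a product -/

set_option autoImplicit false

namespace Pool.Agent.X111.GN

open Finset Polynomial Pool.Agent.W277.UB Pool.Agent.W277.UB.PlaceData
open Pool.Agent.X328.FP (hQ hQ_supp hQ_nonneg le_hQ pf_eq)

universe u v w

section

variable {k : Type v} {K : Type u} [Field k] [Field K] [Algebra k K] (Q : PlaceData.{w} k K)

lemma exists_supp (x : K) : ∃ S : Finset Q.Pl, ∀ v, v ∉ S → Q.pole v x = 0 := by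
  by_cases hx : x = 0
  · exact ⟨∅, fun v _ => by rw [hx, pole_zero]⟩
  · refine ⟨(Q.fin x hx).toFinset, fun v hv => ?_⟩
    have : Q.ord v x = 0 := by
      by_contra hcon
      exact hv (by simpa using hcon)
    rw [pole_of_ne hx, this]
    simp

/-- a bound for the poles gives a bound for the height -/
lemma hQ_le {ι : Type*} (x : K) (s : Finset ι) (c : ι → ℤ) (hc : ∀ i ∈ s, 0 ≤ c i) (y : ι → K)
    (h : ∀ v, Q.pole v x ≤ ∑ i ∈ s, c i * Q.pole v (y i)) :
    hQ Q x ≤ ∑ i ∈ s, c i * hQ Q (y i) := by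
  obtain ⟨S, hS⟩ := exists_supp Q x
  rw [← hQ_supp Q x S hS]
  calc ∑ v ∈ S, Q.wt v * Q.pole v x
      ≤ ∑ v ∈ S, Q.wt v * ∑ i ∈ s, c i * Q.pole v (y i) :=
        Finset.sum_le_sum fun v _ => mul_le_mul_of_nonneg_left (h v) (Q.wt_nonneg v)
    _ = ∑ i ∈ s, c i * ∑ v ∈ S, Q.wt v * Q.pole v (y i) := by
        simp_rw [Finset.mul_sum]
        rw [Finset.sum_comm]
        refine Finset.sum_congr rfl fun i _ => Finset.sum_congr rfl fun v _ => ?_
        ring
    _ ≤ ∑ i ∈ s, c i * hQ Q (y i) :=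
        Finset.sum_le_sum fun i hi => mul_le_mul_of_nonneg_left (le_hQ Q (y i) S) (hc i hi)

/-- the same for a multiset -/
lemma hQ_le_multiset (x : K) (Λ : Multiset K)
    (h : ∀ v, Q.pole v x ≤ (Λ.map fun y => Q.pole v y).sum) :
    hQ Q x ≤ (Λ.map fun y => hQ Q y).sum := by
  obtain ⟨S, hS⟩ := exists_supp Q x
  rw [← hQ_supp Q x S hS]
  have key : ∀ Λ : Multiset K, ∑ v ∈ S, Q.wt v * (Λ.map fun y => Q.pole v y).sum ≤
      (Λ.map fun y => hQ Q y).sum := by
    intro Λ
    induction Λ using Multiset.induction_on with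
    | empty => simp
    | cons a s ih =>
      simp only [Multiset.map_cons, Multiset.sum_cons, mul_add, Finset.sum_add_distrib]
      exact add_le_add (le_hQ Q a S) ih
  exact (Finset.sum_le_sum fun v _ => mul_le_mul_of_nonneg_left (h v) (Q.wt_nonneg v)).trans
    (key Λ)

lemma pole_sum_nonneg (v : Q.Pl) (Λ : Multiset K) : 0 ≤ (Λ.map fun y => Q.pole v y).sum := by
  apply Multiset.sum_nonneg
  intro x hx
  obtain ⟨y, _, rfl⟩ := Multiset.mem_map.1 hx
  exact pole_nonneg v y

lemma G_coeff (v : Q.Pl) (Λ : Multiset K) : ∀ j : ℕ,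
    Q.G v (-(Λ.map fun y => Q.pole v y).sum) ((Λ.map fun y => (X - C y : K[X])).prod.coeff j) := by
  induction Λ using Multiset.induction_on with
  | empty =>
    intro j
    simp only [Multiset.map_zero, Multiset.sum_zero, Multiset.prod_zero, Polynomial.coeff_one,
      neg_zero]
    split_ifs
    · exact G_one
    · exact G_zero
  | cons a s ih =>
    intro j
    simp only [Multiset.map_cons, Multiset.sum_cons, Multiset.prod_cons]
    rw [sub_mul, Polynomial.coeff_sub, Polynomial.coeff_C_mul]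
    apply G_sub
    · cases j with
      | zero =>
        rw [Polynomial.coeff_X_mul_zero]
        exact G_zero
      | succ j =>
        rw [Polynomial.coeff_X_mul]
        exact G_mono (ih j) (by have := pole_nonneg v a; omega)
    · have := G_mul (G_pole v a) (ih j)
      exact G_mono this (by omega)

lemma ht3 (Λ : Multiset K) (j : ℕ) :
    hQ Q ((Λ.map fun y => (X - C y : K[X])).prod.coeff j) ≤ (Λ.map fun y => hQ Q y).sum :=
  hQ_le_multiset Q _ Λ fun v => pole_le_of_G (pole_sum_nonneg Q v Λ) (G_coeff Q v Λ j)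

/-- the local inequality for a root -/
lemma pole_root (v : Q.Pl) (m₀ : ℕ) (b : ℕ → K) (y : K) (hb : b m₀ ≠ 0)
    (h : ∑ m ∈ range (m₀ + 1), b m * y ^ m = 0) :
    Q.pole v y ≤ Q.ord v (b m₀) + ∑ m ∈ range (m₀ + 1), Q.pole v (b m) := by
  have hsum0 : Q.pole v (b m₀) ≤ ∑ m ∈ range (m₀ + 1), Q.pole v (b m) :=
    Finset.single_le_sum (f := fun m => Q.pole v (b m)) (fun m _ => pole_nonneg v (b m))
      (Finset.mem_range.2 (Nat.lt_succ_self m₀))
  have hbp : -Q.pole v (b m₀) ≤ Q.ord v (b m₀) := G_pole v (b m₀) hb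
  rcases (pole_nonneg v y).eq_or_lt with h0 | h0
  · rw [← h0]
    omega
  · have hy : y ≠ 0 := by
      rintro rfl
      rw [pole_zero] at h0
      exact lt_irrefl _ h0
    have hord : Q.ord v y = -Q.pole v y := by
      rw [pole_of_ne hy] at h0 ⊢
      rcases le_total 0 (-Q.ord v y) with h1 | h1
      · rw [max_eq_right h1]; ring
      · rw [max_eq_left h1] at h0
        exact absurd h0 (lt_irrefl _)
    rw [Finset.sum_range_succ] at h
    have h2 : b m₀ * y ^ m₀ = -∑ m ∈ range m₀, b m * y ^ m := by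
      rw [eq_neg_iff_add_eq_zero, add_comm]
      exact h
    have h3 : Q.G v (-(∑ m ∈ range (m₀ + 1), Q.pole v (b m)) - ((m₀ : ℤ) - 1) * Q.pole v y)
        (b m₀ * y ^ m₀) := by
      rw [h2]
      apply G_neg
      apply G_sum
      intro m hm
      have hm' := Finset.mem_range.1 hm
      have h4 := G_mul (G_pole v (b m)) (G_pow (G_pole v y) m)
      refine G_mono h4 ?_
      have h5 : Q.pole v (b m) ≤ ∑ m ∈ range (m₀ + 1), Q.pole v (b m) :=
        Finset.single_le_sum (f := fun m => Q.pole v (b m)) (fun m _ => pole_nonneg v (b m))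
          (Finset.mem_range.2 (by omega))
      have h6 : ((m : ℤ)) * Q.pole v y ≤ ((m₀ : ℤ) - 1) * Q.pole v y := by
        apply mul_le_mul_of_nonneg_right _ h0.le
        omega
      have h7 : (m : ℤ) * -Q.pole v y = -((m : ℤ) * Q.pole v y) := by ring
      rw [h7]
      linarith
    have h8 := h3 (mul_ne_zero hb (pow_ne_zero _ hy))
    rw [Q.ord_mul v _ _ hb (pow_ne_zero _ hy), ord_pow hy, hord] at h8
    nlinarith [h8]

lemma ht2 (M : ℕ) (b : ℕ → K) (y : K) (hb : ∃ m ≤ M, b m ≠ 0)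
    (h : ∑ m ∈ range (M + 1), b m * y ^ m = 0) :
    hQ Q y ≤ ∑ m ∈ range (M + 1), hQ Q (b m) := by
  classical
  -- the top index
  obtain ⟨m₀, hm₀, hb₀, htop⟩ : ∃ m₀ ≤ M, b m₀ ≠ 0 ∧ ∀ m ≤ M, m₀ < m → b m = 0 := by
    induction M with
    | zero =>
      obtain ⟨m, hm, hbm⟩ := hb
      exact ⟨m, hm, hbm, fun m' hm' hlt => by omega⟩
    | succ M ih =>
      by_cases h1 : b (M + 1) = 0
      · obtain ⟨m, hm, hbm⟩ := hb
        have hm' : m ≤ M := by
          rcases Nat.lt_or_ge m (M + 1) with h2 | h2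
          · omega
          · exfalso
            have : m = M + 1 := by omega
            exact hbm (this ▸ h1)
        have h' : ∑ m ∈ range (M + 1), b m * y ^ m = 0 := by
          rw [Finset.sum_range_succ, h1, zero_mul, add_zero] at h
          exact h
        obtain ⟨m₀, ha, hb', hc⟩ := ih ⟨m, hm', hbm⟩ h'
        refine ⟨m₀, by omega, hb', fun m' hm'' hlt => ?_⟩
        rcases Nat.lt_or_ge m' (M + 1) with h2 | h2
        · exact hc m' (by omega) hlt
        · have : m' = M + 1 := by omega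
          rw [this]; exact h1
      · exact ⟨M + 1, le_rfl, h1, fun m hm hlt => by omega⟩
  have h' : ∑ m ∈ range (m₀ + 1), b m * y ^ m = 0 := by
    rw [← h]
    apply Finset.sum_subset
    · intro m hm
      have := Finset.mem_range.1 hm
      exact Finset.mem_range.2 (by omega)
    · intro m hm hm'
      have h1 := Finset.mem_range.1 hm
      have h2 : ¬ m < m₀ + 1 := fun hc => hm' (Finset.mem_range.2 hc)
      rw [htop m (by omega) (by omega), zero_mul]
  obtain ⟨S₁, hS₁⟩ := exists_supp Q y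
  set S : Finset Q.Pl := S₁ ∪ (Q.fin (b m₀) hb₀).toFinset with hSdef
  have hSy : ∀ v, v ∉ S → Q.pole v y = 0 := fun v hv =>
    hS₁ v fun hc => hv (Finset.mem_union_left _ hc)
  have hSb : ∀ v, v ∉ S → Q.ord v (b m₀) = 0 := by
    intro v hv
    by_contra hcon
    exact hv (Finset.mem_union_right _ (by simpa using hcon))
  have hpf := pf_eq Q (b m₀) hb₀ S hSb
  calc hQ Q y = ∑ v ∈ S, Q.wt v * Q.pole v y := (hQ_supp Q y S hSy).symm
    _ ≤ ∑ v ∈ S, Q.wt v * (Q.ord v (b m₀) + ∑ m ∈ range (m₀ + 1), Q.pole v (b m)) :=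
        Finset.sum_le_sum fun v _ => mul_le_mul_of_nonneg_left (pole_root Q v m₀ b y hb₀ h')
          (Q.wt_nonneg v)
    _ = ∑ v ∈ S, Q.wt v * Q.ord v (b m₀) +
          ∑ m ∈ range (m₀ + 1), ∑ v ∈ S, Q.wt v * Q.pole v (b m) := by
        rw [Finset.sum_comm (s := range (m₀ + 1))]
        rw [← Finset.sum_add_distrib]
        refine Finset.sum_congr rfl fun v _ => ?_
        rw [mul_add, Finset.mul_sum]
    _ = ∑ m ∈ range (m₀ + 1), ∑ v ∈ S, Q.wt v * Q.pole v (b m) := by rw [hpf, zero_add]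
    _ ≤ ∑ m ∈ range (m₀ + 1), hQ Q (b m) := Finset.sum_le_sum fun m _ => le_hQ Q (b m) S
    _ ≤ ∑ m ∈ range (M + 1), hQ Q (b m) := by
        apply Finset.sum_le_sum_of_subset_of_nonneg
        · intro m hm
          have := Finset.mem_range.1 hm
          exact Finset.mem_range.2 (by omega)
        · intro m _ _
          exact hQ_nonneg Q (b m)

end

theorem t_HT2 : Pool.Agent.X328.GN.S_HT2.{u, v, w} := by
  intro k K _ _ _ Q M b y hb h
  exact ht2 Q M b y hb h

theorem t_HT3 : Pool.Agent.X328.GN.S_HT3.{u, v, w} := by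
  intro k K _ _ _ Q Λ j
  exact ht3 Q Λ j

section

variable {k : Type v} {K : Type u} [Field k] [CharZero k] [Field K] [CharZero K] [Algebra k K]
  (Q : PlaceData.{w} k K)

omit [CharZero k] in
lemma G_rat (v : Q.Pl) (c : ℚ) : Q.G v 0 (algebraMap ℚ K c) := by
  have h1 : algebraMap ℚ K c = algebraMap k K (c : k) := by
    rw [map_ratCast]
    simp
  rw [h1]
  exact G_alg _

omit [CharZero k] in
lemma ht1 (τ : Type) [Fintype τ] (G : MvPolynomial τ ℚ) (y : τ → K) :
    hQ Q (MvPolynomial.aeval y G) ≤ (G.totalDegree : ℤ) * ∑ i, hQ Q (y i) := by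
  rw [Finset.mul_sum]
  apply hQ_le Q (MvPolynomial.aeval y G) Finset.univ (fun _ => (G.totalDegree : ℤ))
    (fun i _ => by positivity) y
  intro v
  have hnn : 0 ≤ ∑ i, (G.totalDegree : ℤ) * Q.pole v (y i) :=
    Finset.sum_nonneg fun i _ => mul_nonneg (by positivity) (pole_nonneg v _)
  apply pole_le_of_G hnn
  rw [MvPolynomial.aeval_def, MvPolynomial.eval₂_eq']
  apply G_sum
  intro m hm
  have h1 : Q.G v (∑ i, -((m i : ℤ) * Q.pole v (y i))) (∏ i, y i ^ m i) := by
    apply G_prod
    intro i _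
    have := G_pow (G_pole v (y i)) (m i)
    refine G_mono this (le_of_eq ?_)
    ring
  have h2 := G_mul (G_rat Q v (MvPolynomial.coeff m G)) h1
  refine G_mono h2 ?_
  rw [zero_add, Finset.sum_neg_distrib]
  apply neg_le_neg
  apply Finset.sum_le_sum
  intro i _
  apply mul_le_mul_of_nonneg_right _ (pole_nonneg v _)
  have h3 : m i ≤ G.totalDegree := by
    have h4 := MvPolynomial.le_totalDegree hm
    have h5 : m i ≤ m.sum fun _ e => e := by
      by_cases h6 : m i = 0
      · omega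
      · rw [Finsupp.sum]
        exact Finset.single_le_sum (f := fun i => m i) (fun _ _ => Nat.zero_le _)
          (Finsupp.mem_support_iff.2 h6)
    omega
  exact_mod_cast h3

end

theorem t_HT1 : Pool.Agent.X328.GN.S_HT1.{u, v, w} := by
  intro k K _ _ _ _ _ Q τ _ G y
  exact ht1 Q τ G y

end Pool.Agent.X111.GN
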