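import Mathlib

/-! # Reduction of the roots of a polynomial over a valuation ring -/

set_option autoImplicit false

namespace Pool.Agent.X111.GN

open Polynomial

variable {E : Type*} [Field E] (O : ValuationSubring E)

/-- a polynomial over a valuation ring `O`, whose leading coefficient is a unit and which splits over
the field of fractions, is a product of linear factors over `O` -/
theorem eq_prod_of_splits (P : O[X]) (hu : IsUnit P.leadingCoeff)
    (hs : (P.map (algebraMap O E)).Splits) :
    ∃ Λ : Multiset O, P = C P.leadingCoeff * (Λ.map fun x => X - C x).prod := by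
  classical
  have hinj : Function.Injective (algebraMap O E) := IsFractionRing.injective O E
  obtain ⟨u, hu'⟩ := hu
  -- the roots are integral
  have hroot : ∀ x ∈ (P.map (algebraMap O E)).roots, ∃ y : O, algebraMap O E y = x := by
    intro x hx
    have hx' : (P.map (algebraMap O E)).eval x = 0 := (mem_roots'.1 hx).2
    rw [← IsIntegrallyClosed.isIntegral_iff]
    refine ⟨C (↑u⁻¹ : O) * P, ?_, ?_⟩
    · rw [Monic, leadingCoeff_mul, leadingCoeff_C, ← hu', Units.inv_mul]
    · rw [eval₂_mul, eval₂_eq_eval_map (p := P), hx', mul_zero]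
  choose! g hg using hroot
  refine ⟨(P.map (algebraMap O E)).roots.map g, ?_⟩
  apply map_injective (algebraMap O E) hinj
  rw [Polynomial.map_mul, map_C, Polynomial.map_multiset_prod, Multiset.map_map, Multiset.map_map]
  conv_lhs => rw [hs.eq_prod_roots]
  rw [leadingCoeff_map_of_injective hinj]
  congr 2
  apply Multiset.map_congr rfl
  intro x hx
  simp [hg x hx]

/-- reduction of the roots: in the situation of `eq_prod_of_splits` the roots of `P` in the field of
fractions are in `O`, the reduction of `P` modulo the maximal ideal splits, and each of its roots is the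
reduction of a root of `P` -/
theorem roots_reduction (P : O[X]) (hu : IsUnit P.leadingCoeff)
    (hs : (P.map (algebraMap O E)).Splits) :
    (∀ x : E, (P.map (algebraMap O E)).eval x = 0 → x ∈ O) ∧
    (P.map (IsLocalRing.residue O)).Splits ∧
    ∀ ζ : IsLocalRing.ResidueField O, (P.map (IsLocalRing.residue O)).eval ζ = 0 →
      ∃ x : O, P.eval x = 0 ∧ IsLocalRing.residue O x = ζ := by
  obtain ⟨Λ, hΛ⟩ := eq_prod_of_splits O P hu hs
  have hu0 : P.leadingCoeff ≠ 0 := hu.ne_zero
  have hred : P.map (IsLocalRing.residue O) = C (IsLocalRing.residue O P.leadingCoeff) *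
      (Λ.map fun x => X - C (IsLocalRing.residue O x)).prod := by
    conv_lhs => rw [hΛ]
    rw [Polynomial.map_mul, map_C, Polynomial.map_multiset_prod, Multiset.map_map]
    congr 2
    apply Multiset.map_congr rfl
    intro x _
    simp
  have hru : IsLocalRing.residue O P.leadingCoeff ≠ 0 := (hu.map (IsLocalRing.residue O)).ne_zero
  refine ⟨?_, ?_, ?_⟩
  · intro x hx
    rw [hΛ, Polynomial.map_mul, map_C, Polynomial.map_multiset_prod, Multiset.map_map, eval_mul,
      eval_C, eval_multiset_prod, Multiset.map_map] at hx
    have h1 : (Λ.map ((eval x) ∘ ((Polynomial.map (algebraMap O E)) ∘ fun y : O => (X - C y)))).prod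
        = 0 := by
      rcases mul_eq_zero.1 hx with h | h
      · exact absurd ((map_eq_zero_iff _ (IsFractionRing.injective O E)).1 h) hu0
      · exact h
    rw [Multiset.prod_eq_zero_iff] at h1
    obtain ⟨y, _, hy⟩ := Multiset.mem_map.1 h1
    have hy' : x = algebraMap O E y := by
      have : x - algebraMap O E y = 0 := by simpa using hy
      exact sub_eq_zero.1 this
    rw [hy']
    exact y.2
  · rw [hred]
    apply Splits.mul
    · exact Splits.C _
    · apply Splits.multisetProd
      intro f hf
      obtain ⟨y, _, rfl⟩ := Multiset.mem_map.1 hf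
      exact Splits.X_sub_C _
  · intro ζ hζ
    rw [hred, eval_mul, eval_C, eval_multiset_prod, Multiset.map_map] at hζ
    have h1 := (mul_eq_zero.1 hζ).resolve_left hru
    rw [Multiset.prod_eq_zero_iff] at h1
    obtain ⟨y, hyΛ, hy⟩ := Multiset.mem_map.1 h1
    refine ⟨y, ?_, ?_⟩
    · rw [hΛ, eval_mul, eval_multiset_prod, Multiset.map_map]
      have : (0 : O) ∈ Λ.map ((eval y) ∘ fun x : O => (X - C x)) :=
        Multiset.mem_map.2 ⟨y, hyΛ, by simp⟩
      rw [Multiset.prod_eq_zero this, mul_zero]
    · have : ζ - IsLocalRing.residue O y = 0 := by simpa using hy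
      exact (sub_eq_zero.1 this).symm

end Pool.Agent.X111.GN
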